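import Mathlib

set_option autoImplicit false

namespace Pool.Agent.Results.MP_491d6e_gt.Tactic

open Set Filter Topology Metric

universe u

/-- Nonempty closed subsets. -/
def Hyp (X : Type u) [MetricSpace X] : Type u := {A : Set X // IsClosed A ∧ A.Nonempty}

/-- The Wijsman topology: the weakest topology making every `A ↦ d(x, A)` continuous. -/
noncomputable instance wijsman (X : Type u) [MetricSpace X] : TopologicalSpace (Hyp X) :=
  ⨅ x : X, TopologicalSpace.induced (fun A : Hyp X => infDist x A.1) inferInstance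

/-- Player alpha has a winning stationary strategy in the strong Choquet game: the answer depends
only on the last move `(y, U)` of beta. -/
def StronglyAlphaFavorable (Y : Type u) [TopologicalSpace Y] : Prop :=
  ∃ σ : Y → Set Y → Set Y,
    (∀ y U, IsOpen U → y ∈ U → IsOpen (σ y U) ∧ y ∈ σ y U ∧ σ y U ⊆ U) ∧
    ∀ (y : ℕ → Y) (U : ℕ → Set Y), (∀ n, IsOpen (U n) ∧ y n ∈ U n) →
      (∀ n, U (n + 1) ⊆ σ (y n) (U n)) → (⋂ n, σ (y n) (U n)).Nonempty

/-- Player alpha has a winning strategy in the strong Choquet game: the answer in round `n`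
depends on the moves `0, ..., n` of beta. -/
def StronglyChoquet (Y : Type u) [TopologicalSpace Y] : Prop :=
  ∃ σ : (n : ℕ) → (Fin (n + 1) → Y × Set Y) → Set Y,
    (∀ n m, IsOpen (m (Fin.last n)).2 → (m (Fin.last n)).1 ∈ (m (Fin.last n)).2 →
      IsOpen (σ n m) ∧ (m (Fin.last n)).1 ∈ σ n m ∧ σ n m ⊆ (m (Fin.last n)).2) ∧
    ∀ (y : ℕ → Y) (U : ℕ → Set Y), (∀ n, IsOpen (U n) ∧ y n ∈ U n) →
      (∀ n, U (n + 1) ⊆ σ n fun i => (y i, U i)) → (⋂ n, σ n fun i => (y i, U i)).Nonempty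

variable {X : Type u} [MetricSpace X]

lemma cont (x : X) : Continuous fun A : Hyp X => infDist x A.1 :=
  continuous_iInf_dom (i := x) continuous_induced_dom

lemma basic {A : Hyp X} {U : Set (Hyp X)} (hU : U ∈ 𝓝 A) :
    ∃ (F : Finset X) (ε : ℝ), F.Nonempty ∧ 0 < ε ∧
      ∀ B : Hyp X, (∀ x ∈ F, |infDist x B.1 - infDist x A.1| < ε) → B ∈ U := by
  classical
  have key : ∃ (F : Finset X) (ε : ℝ), 0 < ε ∧
      ∀ B : Hyp X, (∀ x ∈ F, |infDist x B.1 - infDist x A.1| < ε) → B ∈ U := by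
    rw [nhds_iInf] at hU
    refine Filter.iInf_sets_induct hU ⟨∅, 1, one_pos, fun _ _ => mem_univ _⟩ ?_
    rintro x s t hs ⟨F, ε, hε, h⟩
    rw [nhds_induced, mem_comap] at hs
    obtain ⟨v, hv, hs⟩ := hs
    obtain ⟨δ, hδ, hv'⟩ := Metric.mem_nhds_iff.mp hv
    refine ⟨insert x F, min ε δ, lt_min hε hδ, fun B hB => ⟨hs (hv' ?_), h B fun y hy => ?_⟩⟩
    · exact (hB x (Finset.mem_insert_self _ _)).trans_le (min_le_right _ _)
    · exact (hB y (Finset.mem_insert_of_mem hy)).trans_le (min_le_left _ _)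
  obtain ⟨F, ε, hε, h⟩ := key
  obtain ⟨a, -⟩ := A.2.2
  exact ⟨insert a F, ε, Finset.insert_nonempty _ _, hε,
    fun B hB => h B fun x hx => hB x (Finset.mem_insert_of_mem hx)⟩

variable {Y : Type u} [MetricSpace Y]

noncomputable def D (e : X ≃ₜ Y) (O : Set X) : ENNReal := min (ediam (e '' O)) 1

lemma shrink (e : X ≃ₜ Y) (a : X) {θ : ℝ} (hθ : 0 < θ) :
    ∃ η, 0 < η ∧ η < θ ∧ ediam (e '' ball a η) ≤ D e (ball a θ) / 2 := by
  by_cases h : D e (ball a θ) = 0
  · refine ⟨θ / 2, by linarith, by linarith, ?_⟩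
    have h1 : ediam (e '' ball a θ) = 0 := by
      rcases min_eq_iff.mp h with h | h
      · exact h.1
      · exact absurd h.1 one_ne_zero
    exact ((ediam_mono (image_mono (ball_subset_ball (by linarith)))).trans h1.le).trans
      (zero_le)
  · have h1 : 0 < D e (ball a θ) / 2 / 2 :=
      ENNReal.half_pos (ENNReal.half_pos h).ne'
    obtain ⟨δ, hδ, h2⟩ := Metric.mem_nhds_iff.mp
      (e.continuous.continuousAt.preimage_mem_nhds (eball_mem_nhds (e a) h1))
    refine ⟨min δ (θ / 2), lt_min hδ (by linarith), (min_le_right _ _).trans_lt (by linarith), ?_⟩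
    refine (ediam_mono (t := eball (e a) (D e (ball a θ) / 2 / 2)) ?_).trans
      (ediam_eball_le.trans (ENNReal.mul_div_cancel (by simp) (by simp)).le)
    rintro _ ⟨x, hx, rfl⟩
    exact h2 (ball_subset_ball (min_le_left _ _) hx)

structure Data (e : X ≃ₜ Y) (A : Hyp X) (U : Set (Hyp X)) where
  F : Finset X
  ε : ℝ
  a : X → X
  η : X → ℝ
  ne : F.Nonempty
  pos : 0 < ε
  sub : ∀ B : Hyp X, (∀ x ∈ F, |infDist x B.1 - infDist x A.1| < ε) → B ∈ U
  mem : ∀ x, a x ∈ A.1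
  near : ∀ x, dist x (a x) < infDist x A.1 + ε / 2
  ηpos : ∀ x, 0 < η x
  ηlt : ∀ x, η x < ε / 4
  small : ∀ x, ediam (e '' ball (a x) (η x)) ≤ D e (ball (a x) (ε / 4)) / 2

lemma exists_data (e : X ≃ₜ Y) {A : Hyp X} {U : Set (Hyp X)} (hU : U ∈ 𝓝 A) :
    Nonempty (Data e A U) := by
  obtain ⟨F, ε, h1, h2, h3⟩ := basic hU
  have h4 : ∀ x, ∃ a ∈ A.1, dist x a < infDist x A.1 + ε / 2 := fun x =>
    (infDist_lt_iff A.2.2).mp (by linarith)
  choose a ha1 ha2 using h4
  choose η h5 h6 h7 using fun x => shrink e (a x) (show 0 < ε / 4 by linarith)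
  exact ⟨⟨F, ε, a, η, h1, h2, h3, ha1, ha2, h5, h6, h7⟩⟩

def Data.V {e : X ≃ₜ Y} {A : Hyp X} {U : Set (Hyp X)} (d : Data e A U) : Set (Hyp X) :=
  {B | ∀ x ∈ d.F, infDist x A.1 - d.ε / 2 < infDist x B.1 ∧ infDist (d.a x) B.1 < d.η x}

variable {e : X ≃ₜ Y}

lemma Data.V_open {A : Hyp X} {U : Set (Hyp X)} (d : Data e A U) : IsOpen d.V := by
  have : d.V = ⋂ x ∈ d.F, ({B : Hyp X | infDist x A.1 - d.ε / 2 < infDist x B.1} ∩
      {B : Hyp X | infDist (d.a x) B.1 < d.η x}) := by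
    ext B
    simp [Data.V]
  rw [this]
  exact isOpen_biInter_finset fun x _ => (isOpen_lt continuous_const (cont x)).inter
    (isOpen_lt (cont _) continuous_const)

lemma Data.mem_V {A : Hyp X} {U : Set (Hyp X)} (d : Data e A U) : A ∈ d.V := fun x _ =>
  ⟨by linarith [d.pos], by rw [infDist_zero_of_mem (d.mem x)]; exact d.ηpos x⟩

lemma Data.mem_U {A : Hyp X} {U : Set (Hyp X)} (d : Data e A U) (B : Hyp X)
    (h : ∀ x ∈ d.F, infDist x A.1 - d.ε / 2 ≤ infDist x B.1 ∧ infDist (d.a x) B.1 < d.ε / 4) :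
    B ∈ U := by
  refine d.sub B fun x hx => abs_lt.mpr ⟨by linarith [(h x hx).1, d.pos], ?_⟩
  linarith [(h x hx).2, d.near x, d.pos,
    infDist_le_infDist_add_dist (s := B.1) (x := x) (y := d.a x)]

lemma Data.V_sub {A : Hyp X} {U : Set (Hyp X)} (d : Data e A U) : d.V ⊆ U := fun B hB =>
  d.mem_U B fun x hx => ⟨(hB x hx).1.le, (hB x hx).2.trans (d.ηlt x)⟩

lemma Data.step {A : Hyp X} {U : Set (Hyp X)} (d : Data e A U) {c : X} {r : ℝ}
    (h : ∀ B ∈ U, infDist c B.1 < r) : ∃ x ∈ d.F, ball (d.a x) (d.ε / 4) ⊆ ball c r := by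
  classical
  by_contra hc
  push Not at hc
  simp only [not_subset] at hc
  choose! b hb1 hb2 using hc
  obtain ⟨x0, hx0⟩ := d.ne
  let B : Hyp X := ⟨b '' d.F, (d.F.finite_toSet.image b).isClosed, b x0, x0, hx0, rfl⟩
  have hB : B ∈ U := by
    refine d.mem_U B fun x hx => ⟨(le_infDist B.2.2).mpr ?_, ?_⟩
    · rintro _ ⟨y, hy, rfl⟩
      have h1 := infDist_le_dist_of_mem (x := x) (d.mem y)
      have h2 := mem_ball.mp (hb1 y hy)
      linarith [dist_triangle x (b y) (d.a y), d.pos]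
    · exact (infDist_le_dist_of_mem (mem_image_of_mem b hx)).trans_lt (mem_ball'.mp (hb1 x hx))
  obtain ⟨_, ⟨y, hy, rfl⟩, h1⟩ := (infDist_lt_iff B.2.2).mp (h B hB)
  exact hb2 y hy (mem_ball'.mpr h1)

lemma thread [CompleteSpace Y] (A : ℕ → Hyp X) (U : ℕ → Set (Hyp X))
    (d : ∀ n, Data e (A n) (U n)) (hA : ∀ n, A n ∈ U n) (hU : ∀ n, U (n + 1) ⊆ (d n).V)
    (n : ℕ) (x : X) (hx : x ∈ (d n).F) :
    ∃ p ∈ ball ((d n).a x) ((d n).η x), ∀ m, ∀ y ∈ (d m).F,
      infDist y (A m).1 - (d m).ε / 2 ≤ dist y p := by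
  have h1 : ∀ k (z : {z // z ∈ (d k).F}), ∃ z' : {z // z ∈ (d (k + 1)).F},
      ball ((d (k + 1)).a z') ((d (k + 1)).ε / 4) ⊆ ball ((d k).a z) ((d k).η z) := by
    intro k z
    obtain ⟨z', h1, h2⟩ := (d (k + 1)).step fun B hB => (hU k hB z z.2).2
    exact ⟨⟨z', h1⟩, h2⟩
  choose nx hnx using h1
  let z : ∀ k, {z // z ∈ (d (n + k)).F} := fun k => Nat.rec ⟨x, hx⟩ (fun k w => nx (n + k) w) k
  let c : ℕ → X := fun k => (d (n + k)).a (z k).1
  let r : ℕ → ℝ := fun k => (d (n + k)).η (z k).1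
  have h2 : ∀ k, ball (c (k + 1)) ((d (n + (k + 1))).ε / 4) ⊆ ball (c k) (r k) :=
    fun k => hnx (n + k) (z k)
  have h3 : ∀ k, closedBall (c (k + 1)) (r (k + 1)) ⊆ ball (c k) (r k) := fun k =>
    (closedBall_subset_ball ((d _).ηlt _)).trans (h2 k)
  have h4 : ∀ k, ediam (e '' ball (c k) (r k)) ≤ 1 / 2 ^ k := by
    intro k
    induction k with
    | zero =>
      refine ((d _).small _).trans (ENNReal.half_le_self.trans ?_)
      simp [D]
    | succ k ih =>
      refine ((d _).small _).trans ?_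
      refine (ENNReal.div_le_div_right
        ((min_le_left _ _).trans ((ediam_mono (image_mono (h2 k))).trans ih)) _).trans_eq ?_
      simp only [div_eq_mul_inv, one_mul, ENNReal.inv_pow]
      rw [pow_succ]
  have hc : ∀ k, c k ∈ ball (c k) (r k) := fun k => mem_ball_self ((d _).ηpos _)
  have h5 : CauchySeq (e ∘ c) := by
    refine cauchySeq_of_edist_le_geometric_two 1 ENNReal.one_ne_top fun k => ?_
    exact (edist_le_ediam_of_mem (mem_image_of_mem e (hc k))
      (mem_image_of_mem e (h3 k (ball_subset_closedBall (hc (k + 1)))))).trans (h4 k)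
  obtain ⟨q, hq⟩ := cauchySeq_tendsto_of_complete h5
  have hp : Tendsto c atTop (𝓝 (e.symm q)) :=
    ((e.symm.continuous.tendsto q).comp hq).congr fun k => e.symm_apply_apply _
  have h6 : Antitone fun k => ball (c k) (r k) :=
    antitone_nat_of_succ_le fun k => ball_subset_closedBall.trans (h3 k)
  have h7 : Antitone U := antitone_nat_of_succ_le fun k => (hU k).trans (d k).V_sub
  refine ⟨e.symm q, h3 0 (isClosed_closedBall.mem_of_tendsto hp ?_), fun m y hy => ?_⟩
  · exact (eventually_ge_atTop 1).mono fun k hk => ball_subset_closedBall (h6 hk (hc k))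
  · refine ge_of_tendsto (tendsto_const_nhds.dist hp) ((eventually_ge_atTop (m + 1)).mono ?_)
    intro k hk
    have h8 : A (n + k) ∈ (d m).V := hU m (h7 (by omega) (hA (n + k)))
    exact (h8 y hy).1.le.trans (infDist_le_dist_of_mem ((d _).mem _))

lemma favorable [CompleteSpace Y] (e : X ≃ₜ Y) : StronglyAlphaFavorable (Hyp X) := by
  classical
  refine ⟨fun A U => if h : U ∈ 𝓝 A then (exists_data e h).some.V else U, fun A U h1 h2 => ?_,
    fun A U h1 h2 => ?_⟩
  · simp only [dif_pos (h1.mem_nhds h2)]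
    exact ⟨Data.V_open _, Data.mem_V _, Data.V_sub _⟩
  · have h3 : ∀ n, U n ∈ 𝓝 (A n) := fun n => (h1 n).1.mem_nhds (h1 n).2
    simp only [dif_pos (h3 _)] at h2 ⊢
    let d : ∀ n, Data e (A n) (U n) := fun n => (exists_data e (h3 n)).some
    have h4 := thread A U d (fun n => (h1 n).2) h2
    let S : Set X := {p | ∀ m, ∀ y ∈ (d m).F, infDist y (A m).1 - (d m).ε / 2 ≤ dist y p}
    have hS : IsClosed S := by
      simp only [S, ofPred_forall]
      exact isClosed_iInter fun m => isClosed_iInter fun y => isClosed_iInter fun _ =>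
        isClosed_le continuous_const (continuous_const.dist continuous_id)
    obtain ⟨x0, hx0⟩ := (d 0).ne
    obtain ⟨p0, -, hp0⟩ := h4 0 x0 hx0
    let B : Hyp X := ⟨S, hS, p0, hp0⟩
    refine ⟨B, mem_iInter.mpr fun n => h2 n ((d (n + 1)).mem_U B fun x hx => ⟨?_, ?_⟩)⟩
    · exact (le_infDist B.2.2).mpr fun p hp => hp _ x hx
    · obtain ⟨p, hp1, hp2⟩ := h4 _ x hx
      exact (infDist_le_dist_of_mem (show p ∈ B.1 from hp2)).trans_lt
        ((mem_ball'.mp hp1).trans ((d _).ηlt x))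

lemma model (X : Type u) [t : TopologicalSpace X]
    [h : TopologicalSpace.IsCompletelyMetrizableSpace X] :
    ∃ (Y : Type u) (_ : MetricSpace Y) (_ : CompleteSpace Y), Nonempty (X ≃ₜ Y) := by
  obtain ⟨m, rfl, hc⟩ := h.complete
  exact ⟨X, m, hc, ⟨Homeomorph.refl X⟩⟩

/-- For every metric space whose topology is completely metrizable, the Wijsman hyperspace is
strongly Choquet and strongly alpha-favorable. -/
theorem result (X : Type u) [MetricSpace X] [TopologicalSpace.IsCompletelyMetrizableSpace X] :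
    StronglyChoquet (Hyp X) ∧ StronglyAlphaFavorable (Hyp X) := by
  have h : StronglyAlphaFavorable (Hyp X) := by
    obtain ⟨Y, _, _, ⟨e⟩⟩ := model X
    exact favorable e
  refine ⟨?_, h⟩
  obtain ⟨σ, h1, h2⟩ := h
  exact ⟨fun n m => σ (m (Fin.last n)).1 (m (Fin.last n)).2, fun n m => h1 _ _, h2⟩

end Pool.Agent.Results.MP_491d6e_gt.Tactic
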